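import Mathlib

set_option autoImplicit false

namespace Pool.Agent.Results.MP_4780e6_al.OneSided

/-- The matrix over `R` with the given unit entries. -/
def mat {R : Type} [Ring R] {v : ℕ} (M : Fin v → Fin v → Rˣ) : Matrix (Fin v) (Fin v) R :=
  Matrix.of fun i j => (M i j : R)

/-- The transpose of the matrix of entrywise inverses. -/
def star' {R : Type} [Ring R] {v : ℕ} (M : Fin v → Fin v → Rˣ) : Matrix (Fin v) (Fin v) R :=
  Matrix.of fun i j => (((M j i)⁻¹ : Rˣ) : R)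

def un (x : ZMod 12) : (ZMod 12)ˣ := if h : x * x = 1 then ⟨x, x, h, h⟩ else 1

/-- A matrix with unit entries with `M M* = v I` and `M* M ≠ v I`, where `v ≠ 0` in the ring. -/
theorem result : ∃ (R : Type) (_ : Ring R) (v : ℕ) (N : Subgroup Rˣ) (M : Fin v → Fin v → Rˣ),
    2 ≤ v ∧ (v : R) ≠ 0 ∧ (∀ i j, M i j ∈ N) ∧
    mat M * star' M = (v : R) • (1 : Matrix (Fin v) (Fin v) R) ∧
    star' M * mat M ≠ (v : R) • (1 : Matrix (Fin v) (Fin v) R) :=
  ⟨ZMod 12, inferInstance, 4, ⊤,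
    fun i j => un (!![1, 1, 1, 1; 1, 1, 11, 11; 1, 5, 1, 5; 1, 5, 5, 1] i j), by decide, by decide,
    fun _ _ => Subgroup.mem_top _, by decide, by decide⟩

end Pool.Agent.Results.MP_4780e6_al.OneSided
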